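import Pool.Agent.Helper75.KM.Stmts

set_option autoImplicit false

/-!
# Module ACC: bookkeeping of entropies in the localisation
-/

namespace Pool.Agent.Helper75.KM

open Pool.Agent.Helper8.Kak Pool.Agent.Helper89.KakGeo Finset

theorem acc_QQ {N : ℕ} {j j' : Fin (N + 1)} {t t' : Fin (2 ^ N)} (h : QQ j t = QQ j' t') :
    j = j' := by
  have := congrArg Prod.fst h
  exact Fin.ext this

theorem st_ACC : ST_ACC := by
  intro Ω _ p hp m N L X v K l T P J Q Θ α η E hα hη hQ hΘ H1 H2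
  have hQJ : ∀ ω ω', Q ω = Q ω' → J ω = J ω' := by
    intro ω ω' h
    rw [hQ] at h
    exact acc_QQ h
  have hΘQ : ∀ ω ω', Θ ω = Θ ω' → Q ω = Q ω' := by
    intro ω ω' h
    rw [hΘ] at h
    exact congrArg Prod.fst h
  have hQΘ : ∀ ω ω', l ω = l ω' → Q ω = Q ω' → Θ ω = Θ ω' := by
    intro ω ω' h1 h2
    rw [hΘ]
    change (Q ω, FF N v (J ω) (l ω)) = (Q ω', FF N v (J ω') (l ω'))
    rw [h1, h2, hQJ ω ω' h2]
  -- the equal entropies
  have s1 : K ⊓ Setoid.ker l ⊓ Setoid.ker Θ = K ⊓ Setoid.ker l ⊓ Setoid.ker Q := by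
    ext a b
    constructor
    · rintro ⟨h1, h2⟩
      exact ⟨h1, hΘQ a b h2⟩
    · rintro ⟨h1, h2⟩
      exact ⟨h1, hQΘ a b h1.2 h2⟩
  have s2 : K ⊓ Setoid.ker l ⊓ Setoid.ker T ⊓ Setoid.ker Θ
      = K ⊓ Setoid.ker l ⊓ Setoid.ker T ⊓ Setoid.ker Q := by
    ext a b
    constructor
    · rintro ⟨h1, h2⟩
      exact ⟨h1, hΘQ a b h2⟩
    · rintro ⟨h1, h2⟩
      exact ⟨h1, hQΘ a b h1.1.2 h2⟩
  -- F3
  have F3 : Ent p (K ⊓ Setoid.ker T ⊓ Setoid.ker P ⊓ Setoid.ker Θ) + Ent p (K ⊓ Setoid.ker Q)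
      ≤ Ent p (K ⊓ Setoid.ker T ⊓ Setoid.ker P ⊓ Setoid.ker Q) + Ent p (K ⊓ Setoid.ker Θ) := by
    have h := submod hp (K ⊓ Setoid.ker T ⊓ Setoid.ker P) (Setoid.ker Θ) (K ⊓ Setoid.ker Q)
    have e1 : K ⊓ Setoid.ker T ⊓ Setoid.ker P ⊓ (Setoid.ker Θ ⊓ (K ⊓ Setoid.ker Q))
        = K ⊓ Setoid.ker T ⊓ Setoid.ker P ⊓ Setoid.ker Θ := by
      ext a b
      constructor
      · rintro ⟨h1, h2, h3, h4⟩
        exact ⟨h1, h2⟩
      · rintro ⟨h1, h2⟩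
        exact ⟨h1, h2, h1.1.1, hΘQ a b h2⟩
    have e2 : K ⊓ Setoid.ker T ⊓ Setoid.ker P ⊓ (K ⊓ Setoid.ker Q)
        = K ⊓ Setoid.ker T ⊓ Setoid.ker P ⊓ Setoid.ker Q := by
      ext a b
      constructor
      · rintro ⟨h1, h2, h3⟩
        exact ⟨h1, h3⟩
      · rintro ⟨h1, h2⟩
        exact ⟨h1, h1.1.1, h2⟩
    have e3 : Setoid.ker Θ ⊓ (K ⊓ Setoid.ker Q) = K ⊓ Setoid.ker Θ := by
      ext a b
      constructor
      · rintro ⟨h1, h2, h3⟩
        exact ⟨h2, h1⟩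
      · rintro ⟨h1, h2⟩
        exact ⟨h2, h1, hΘQ a b h2⟩
    rw [e1, e2, e3] at h
    exact h
  -- F4
  have F4 : Ent p (K ⊓ Setoid.ker T ⊓ Setoid.ker P ⊓ Setoid.ker Q)
      ≤ Ent p (K ⊓ Setoid.ker T ⊓ Setoid.ker P) + Real.log ((N : ℝ) + 1) := by
    have h := Ent_height_le hp (K ⊓ Setoid.ker T ⊓ Setoid.ker P) J
    have h2 : Ent p (K ⊓ Setoid.ker T ⊓ Setoid.ker P ⊓ Setoid.ker Q)
        ≤ Ent p (Setoid.ker J ⊓ (K ⊓ Setoid.ker T ⊓ Setoid.ker P)) := by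
      apply Ent_mono hp
      rintro a b ⟨h1, h2⟩
      refine ⟨h2, ?_⟩
      have e1 : J a = J b := h1
      have e2 : T a = T b := h2.1.2
      change Q a = Q b
      rw [hQ]
      change QQ (J a) (T a) = QQ (J b) (T b)
      rw [e1, e2]
    push_cast at h
    linarith
  -- F5
  have F5 : Ent p (K ⊓ Setoid.ker Θ) - Ent p (K ⊓ Setoid.ker Q)
      ≤ m * ((∑ ω, p ω * ((J ω : ℕ) : ℝ)) * Real.log 2) := by
    have h := amb_box hp (K ⊓ Setoid.ker Q) (fun ω => FF N v (J ω) (l ω))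
      (fun ω _ => ((2 : ℝ) ^ (J ω : ℕ) - 1) / 2) (fun ω => ((2 : ℝ) ^ (J ω : ℕ) - 1) / 2) ?_ ?_ ?_
    · have e1 : Setoid.ker (fun ω => FF N v (J ω) (l ω)) ⊓ (K ⊓ Setoid.ker Q)
          = K ⊓ Setoid.ker Θ := by
        ext a b
        constructor
        · rintro ⟨h1, h2, h3⟩
          refine ⟨h2, ?_⟩
          have h1' : FF N v (J a) (l a) = FF N v (J b) (l b) := h1
          have h3' : Q a = Q b := h3
          change Θ a = Θ b
          rw [hΘ]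
          change (Q a, FF N v (J a) (l a)) = (Q b, FF N v (J b) (l b))
          rw [h1', h3']
        · rintro ⟨h1, h2⟩
          refine ⟨?_, h1, hΘQ a b h2⟩
          have h2' : Θ a = Θ b := h2
          rw [hΘ] at h2'
          exact congrArg Prod.snd h2'
      rw [e1] at h
      refine h.trans (le_of_eq ?_)
      congr 1
      rw [Finset.sum_mul]
      refine Finset.sum_congr rfl fun ω _ => ?_
      have e2 : 2 * (((2 : ℝ) ^ (J ω : ℕ) - 1) / 2) + 1 = 2 ^ (J ω : ℕ) := by ring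
      rw [e2, Real.log_pow]
      ring
    · intro ω
      have : (1 : ℝ) ≤ 2 ^ (J ω : ℕ) := one_le_pow₀ (by norm_num)
      linarith
    · intro ω ω' _ _ h
      have hJ : J ω = J ω' := hQJ ω ω' h.2
      rw [hJ]
      exact ⟨rfl, rfl⟩
    · intro ω _ i
      have h1 : 0 ≤ FF N v (J ω) (l ω) i := Int.emod_nonneg _ (by positivity)
      have h2 : FF N v (J ω) (l ω) i < 2 ^ (J ω : ℕ) := Int.emod_lt_of_pos _ (by positivity)
      have h1' : (0 : ℝ) ≤ (FF N v (J ω) (l ω) i : ℝ) := by exact_mod_cast h1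
      have h2' : (FF N v (J ω) (l ω) i : ℝ) + 1 ≤ 2 ^ (J ω : ℕ) := by exact_mod_cast h2
      rw [abs_le]
      constructor <;> linarith
  -- F6
  have F6 : Ent p (K ⊓ Setoid.ker l ⊓ Setoid.ker Q) + Ent p K
      ≤ Ent p (K ⊓ Setoid.ker Q) + Ent p (K ⊓ Setoid.ker l) := by
    have h := submod hp (Setoid.ker Q) (Setoid.ker l) K
    have e1 : Setoid.ker Q ⊓ (Setoid.ker l ⊓ K) = K ⊓ Setoid.ker l ⊓ Setoid.ker Q := by
      rw [inf_comm, inf_comm (Setoid.ker l)]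
    rw [e1, inf_comm _ K, inf_comm _ K] at h
    exact h
  -- F7
  have F7 : Ent p (K ⊓ Setoid.ker l ⊓ Setoid.ker T)
      ≤ Ent p (K ⊓ Setoid.ker l ⊓ Setoid.ker T ⊓ Setoid.ker Q) :=
    Ent_mono hp inf_le_left
  have F8 : ∑ ω, p ω * ((J ω : ℕ) : ℝ) ≤ N := by
    calc ∑ ω, p ω * ((J ω : ℕ) : ℝ) ≤ ∑ ω, p ω * N := by
          refine Finset.sum_le_sum fun ω _ => mul_le_mul_of_nonneg_left ?_ (hp.1 ω)
          have := (J ω).2
          exact_mod_cast Nat.lt_succ_iff.1 this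
      _ = N := by rw [← Finset.sum_mul, hp.2, one_mul]
  rw [s1, s2] at H2
  unfold aa gg tt
  generalize Ent p (K ⊓ Setoid.ker l ⊓ Setoid.ker T ⊓ Setoid.ker Q) = q3 at *
  generalize Ent p (K ⊓ Setoid.ker T ⊓ Setoid.ker P ⊓ Setoid.ker Q) = a1 at *
  generalize Ent p (K ⊓ Setoid.ker T ⊓ Setoid.ker P ⊓ Setoid.ker Θ) = a2 at *
  generalize Ent p (K ⊓ Setoid.ker l ⊓ Setoid.ker Q) = q1 at *
  generalize Ent p (K ⊓ Setoid.ker l ⊓ Setoid.ker T) = e3 at *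
  generalize Ent p (K ⊓ Setoid.ker T ⊓ Setoid.ker P) = e4 at *
  generalize Ent p (K ⊓ Setoid.ker l) = e2 at *
  generalize Ent p (K ⊓ Setoid.ker Q) = q0 at *
  generalize Ent p (K ⊓ Setoid.ker Θ) = f0 at *
  generalize Ent p K = e1 at *
  generalize ∑ ω, p ω * ((J ω : ℕ) : ℝ) = S at *
  have hm : (0 : ℝ) ≤ m := Nat.cast_nonneg m
  have hl2 : 0 < Real.log 2 := Real.log_pos (by norm_num)
  -- alpha bracket
  have A1 : a2 - f0 - (q3 - q1) ≤ (e4 - e1 - (e3 - e2)) + Real.log ((N : ℝ) + 1)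
      - (q0 - e1 - (q1 - e2)) := by linarith
  have A2 := mul_le_mul_of_nonneg_left A1 (by linarith : 0 ≤ α)
  have B1 : (N : ℝ) * Real.log 2 - S * Real.log 2 - (q3 - q1) ≤
      N * Real.log 2 - (e3 - e2) - S * Real.log 2 + (q1 - e2) := by linarith
  have B2 := mul_le_mul_of_nonneg_left B1 hm
  have C1 : q1 - e2 ≤ η * Real.log 2 * N :=
    H1.trans (mul_le_mul_of_nonneg_left F8 (by positivity))
  have C2 := mul_le_mul_of_nonneg_left C1 hm
  have D1 : 0 ≤ (α - 1) * (q0 - e1 - (q1 - e2)) :=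
    mul_nonneg (by linarith) (by linarith)
  linarith

end Pool.Agent.Helper75.KM
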