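import Pool.Agent.Helper75.KM.Stmts

set_option autoImplicit false

/-!
# Module BASE: the exponent two
-/

namespace Pool.Agent.Helper75.KM

open Pool.Agent.Helper8.Kak Pool.Agent.Helper89.KakGeo

section

open V1

/-- two points of the line determine it: entropy form -/
theorem base_two {m M : ℕ} {G : Geo m M} (S : Sys G) {D : ℝ} (h : LDB S D) :
    2 * S.eB - S.eL ≤ 2 * S.eP - S.eK + m * (D + Real.log 11) := by
  have b := S.base
  have c9 : HH S.pY S.V {.P0, .P1, .T0, .T1, .l0} - HH S.pY S.V {.P0, .P1, .T0, .T1}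
      ≤ m * (D + Real.log 11) := by
    refine cost_le S.V _ _ V1.l0 (by decide +kernel) _ fun r hr => ?_
    simp only [Finset.mem_insert, Finset.mem_singleton, forall_eq_or_imp, forall_eq, V_P0, V_P1,
      V_T0, V_T1] at hr
    have h2 := CE_two S.hpY G.hδ G.hδ1 G.hM G.hx G.hv G.hinj r
        (fun y => S.l (c0 y)) (fun y => S.T (cT y)) (fun y => S.T (c0 y))
        (fun y y' _ _ g => ⟨(hr y y' g).2.2.2, (hr y y' g).2.2.1, (hr y y' g).2.1, (hr y y' g).1⟩)
    refine h2.trans (mul_le_mul_of_nonneg_left ?_ (Nat.cast_nonneg m))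
    linarith [h.d10]
  have i1 := b.mn {K, l0, T0, T1} {K, T0, P0, T1, P1, l0} (by decide +kernel)
  have i2 := b.inc {P0, P1, T0, T1} {P0, P1, T0, T1, l0} {K, T0, P0, T1, P1}
    {K, T0, P0, T1, P1, l0} (by decide +kernel) (by decide +kernel)
  have i3 := b.inc {K} {K, T1, P1} {K, T0, P0} {K, T0, P0, T1, P1} (by decide +kernel)
    (by decide +kernel)
  linarith [b.htT1, b.h00, b.hP0, b.hP1, b.hK]

end

theorem st_BASE (hL : ST_LDP) : ST_BASE := by
  intro m ε D hε hD
  refine ⟨m * (D + Real.log 11), ?_⟩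
  intro N L x v hx hv Ω _ p hp K l T hC
  have h2N : (0 : ℝ) < 2 ^ N := by positivity
  let G : Geo m (2 ^ N) :=
    { L := L
      x := x
      v := v
      δ := (1 / 2 : ℝ) ^ N
      hδ := by positivity
      hδ1 := pow_le_one₀ (by norm_num) (by norm_num)
      hM := by
        push_cast
        rw [← mul_pow]
        norm_num
      hx := hx
      hv := hv.1
      hinj := hv.2 }
  let S : Sys G :=
    { Ω := Ω
      fin := inferInstance
      p := p
      hp := hp
      K := K
      l := l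
      T := T }
  have hB := base_two S (hL m (2 ^ N) G S D hC)
  have hκ : 0 ≤ Real.log ((2 ^ N : ℕ) : ℝ) - (S.eB - S.eL) := S.κ_nonneg
  have e1 : Real.log ((2 ^ N : ℕ) : ℝ) = N * Real.log 2 := by
    push_cast
    rw [Real.log_pow]
  rw [e1] at hκ
  have g1 : aa p K l = S.eL - S.eK := rfl
  have g2 : tt p K l T = S.eB - S.eL := rfl
  have g3 : gg p K l T (fun ω => ptn N x v (l ω) (T ω)) = S.eP - S.eK - (S.eB - S.eL) := rfl
  rw [g1, g2, g3]
  have h3 : 0 ≤ (m : ℝ) * (N * Real.log 2 - (S.eB - S.eL)) :=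
    mul_nonneg (Nat.cast_nonneg m) hκ
  have h4 : 0 ≤ ε * N := mul_nonneg hε.le (Nat.cast_nonneg N)
  linarith

end Pool.Agent.Helper75.KM
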