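import Mathlib

namespace Pool.Agent.Helper74.KM

/-- A gap principle for two common neighbours of three positive integers. -/
theorem gapTwo (c₁ c₂ c₃ x y : ℕ) (hc : 0 < c₁) (hc12 : c₁ < c₂) (hc23 : c₂ < c₃)
    (hx : 0 < x) (hxy : x < y)
    (h1x : IsSquare (c₁ * x + 1)) (h2x : IsSquare (c₂ * x + 1)) (h3x : IsSquare (c₃ * x + 1))
    (h1y : IsSquare (c₁ * y + 1)) (h2y : IsSquare (c₂ * y + 1)) (h3y : IsSquare (c₃ * y + 1)) :
    64 * x ^ 3 * c₁ ^ 2 ≤ y * c₃ ^ 2 := by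
  obtain ⟨r1, hr1⟩ := h1x
  obtain ⟨r2, hr2⟩ := h2x
  obtain ⟨r3, hr3⟩ := h3x
  obtain ⟨s1, hs1⟩ := h1y
  obtain ⟨s2, hs2⟩ := h2y
  obtain ⟨s3, hs3⟩ := h3y
  have Hc : (0 : ℝ) < c₁ := by exact_mod_cast hc
  have Hc12 : (c₁ : ℝ) < c₂ := by exact_mod_cast hc12
  have Hc23 : (c₂ : ℝ) < c₃ := by exact_mod_cast hc23
  have Hx : (0 : ℝ) < x := by exact_mod_cast hx
  have Hxy : (x : ℝ) < y := by exact_mod_cast hxy
  have Hy : (0 : ℝ) < y := Hx.trans Hxy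
  have Hr1 : (c₁ : ℝ) * x + 1 = r1 * r1 := by exact_mod_cast hr1
  have Hr2 : (c₂ : ℝ) * x + 1 = r2 * r2 := by exact_mod_cast hr2
  have Hr3 : (c₃ : ℝ) * x + 1 = r3 * r3 := by exact_mod_cast hr3
  have Hs1 : (c₁ : ℝ) * y + 1 = s1 * s1 := by exact_mod_cast hs1
  have Hs2 : (c₂ : ℝ) * y + 1 = s2 * s2 := by exact_mod_cast hs2
  have Hs3 : (c₃ : ℝ) * y + 1 = s3 * s3 := by exact_mod_cast hs3
  set u1 : ℝ := r1 * s1 with hu1
  set u2 : ℝ := r2 * s2 with hu2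
  set u3 : ℝ := r3 * s3 with hu3
  have U1 : u1 ^ 2 = (c₁ * x + 1) * (c₁ * y + 1) := by rw [hu1, Hr1, Hs1]; ring
  have U2 : u2 ^ 2 = (c₂ * x + 1) * (c₂ * y + 1) := by rw [hu2, Hr2, Hs2]; ring
  have U3 : u3 ^ 2 = (c₃ * x + 1) * (c₃ * y + 1) := by rw [hu3, Hr3, Hs3]; ring
  have u1n : 0 ≤ u1 := by positivity
  have u2n : 0 ≤ u2 := by positivity
  have u3n : 0 ≤ u3 := by positivity
  have hc2 : (0 : ℝ) < c₂ := Hc.trans Hc12
  have hc3 : (0 : ℝ) < c₃ := hc2.trans Hc23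
  -- strict concavity
  have hE : 2 * (u1 * u3) < 2 * x * y * c₁ * c₃ + (x + y) * (c₁ + c₃) + 2 := by
    have hpos : 0 < 2 * (x : ℝ) * y * c₁ * c₃ + (x + y) * (c₁ + c₃) + 2 := by positivity
    apply lt_of_pow_lt_pow_left₀ 2 hpos.le
    have e : (2 * (x : ℝ) * y * c₁ * c₃ + (x + y) * (c₁ + c₃) + 2) ^ 2 - (2 * (u1 * u3)) ^ 2
        = ((y - x) * (c₃ - c₁)) ^ 2 := by
      have : (2 * (u1 * u3)) ^ 2 = 4 * (u1 ^ 2 * u3 ^ 2) := by ring
      rw [this, U1, U3]; ring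
    have : 0 < (((y : ℝ) - x) * (c₃ - c₁)) ^ 2 := by
      have h1 : 0 < (y : ℝ) - x := by linarith
      have h2 : 0 < (c₃ : ℝ) - c₁ := by linarith
      positivity
    linarith
  have hconc : (c₃ - c₂) * u1 + (c₂ - c₁) * u3 < (c₃ - c₁) * u2 := by
    have hp : 0 ≤ ((c₃ : ℝ) - c₁) * u2 := mul_nonneg (by linarith) u2n
    apply lt_of_pow_lt_pow_left₀ 2 hp
    have e : (((c₃ : ℝ) - c₁) * u2) ^ 2 - ((c₃ - c₂) * u1 + (c₂ - c₁) * u3) ^ 2
        = ((c₃ - c₂) * (c₂ - c₁)) *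
          (2 * x * y * c₁ * c₃ + (x + y) * (c₁ + c₃) + 2 - 2 * (u1 * u3)) := by
      have e1 : (((c₃ : ℝ) - c₁) * u2) ^ 2 = (c₃ - c₁) ^ 2 * u2 ^ 2 := by ring
      have e2 : (((c₃ : ℝ) - c₂) * u1 + (c₂ - c₁) * u3) ^ 2 =
          (c₃ - c₂) ^ 2 * u1 ^ 2 + (c₂ - c₁) ^ 2 * u3 ^ 2 +
            2 * (c₃ - c₂) * (c₂ - c₁) * (u1 * u3) := by ring
      rw [e1, e2, U1, U2, U3]; ring
    have h1 : 0 < ((c₃ : ℝ) - c₂) * (c₂ - c₁) := mul_pos (by linarith) (by linarith)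
    have h2 : 0 < 2 * (x : ℝ) * y * c₁ * c₃ + (x + y) * (c₁ + c₃) + 2 - 2 * (u1 * u3) := by
      linarith
    have := mul_pos h1 h2
    linarith
  -- the integer
  have hT : (1 : ℝ) ≤ (c₃ - c₁) * u2 - (c₃ - c₂) * u1 - (c₂ - c₁) * u3 := by
    have hz : (0 : ℤ) < ((c₃ : ℤ) - c₁) * (r2 * s2) - (c₃ - c₂) * (r1 * s1) -
        (c₂ - c₁) * (r3 * s3) := by
      have : (0 : ℝ) < (c₃ - c₁) * u2 - (c₃ - c₂) * u1 - (c₂ - c₁) * u3 := by linarith
      rw [hu1, hu2, hu3] at this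
      exact_mod_cast this
    have hz1 : (1 : ℤ) ≤ ((c₃ : ℤ) - c₁) * (r2 * s2) - (c₃ - c₂) * (r1 * s1) -
        (c₂ - c₁) * (r3 * s3) := hz
    rw [hu1, hu2, hu3]
    exact_mod_cast hz1
  -- the upper bound
  set g : ℝ := √(x * y) with hg
  have hgpos : 0 < g := Real.sqrt_pos.mpr (mul_pos Hx Hy)
  have hg2 : g ^ 2 = x * y := Real.sq_sqrt (mul_pos Hx Hy).le
  have key : ∀ (c u : ℝ), 0 < c → 0 ≤ u → u ^ 2 = (c * x + 1) * (c * y + 1) → (c₁ : ℝ) ≤ c →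
      0 ≤ g * c + (x + y) / (2 * g) - u ∧
      g * c + (x + y) / (2 * g) - u ≤ y / (8 * x * g * c₁) := by
    intro c u hc' hu0 hu hcc
    set w : ℝ := g * c + (x + y) / (2 * g) with hw
    have hw0 : 0 < w := by positivity
    have hdiff : w ^ 2 - u ^ 2 = (y - x) ^ 2 / (4 * (x * y)) := by
      have : w ^ 2 = x * y * c ^ 2 + (x + y) * c + (x + y) ^ 2 / (4 * (x * y)) := by
        rw [hw]
        have : (g * c + (x + y) / (2 * g)) ^ 2 =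
            g ^ 2 * c ^ 2 + (x + y) * c + (x + y) ^ 2 / (4 * g ^ 2) := by
          field_simp
          ring
        rw [this, hg2]
      rw [this, hu]
      field_simp
      ring
    have hd0 : 0 ≤ w ^ 2 - u ^ 2 := by rw [hdiff]; positivity
    have hwu : u ≤ w := by
      apply le_of_sq_le_sq _ hw0.le
      linarith
    refine ⟨by linarith, ?_⟩
    have hgu : g * c ≤ u := by
      apply le_of_sq_le_sq _ hu0
      have : (g * c) ^ 2 = g ^ 2 * c ^ 2 := by ring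
      have e3 : (c * x + 1) * (c * y + 1) = x * y * c ^ 2 + (c * x + c * y + 1) := by ring
      have e4 : 0 ≤ c * x + c * y + 1 := by positivity
      rw [this, hg2, hu, e3]
      linarith
    have hwg : g * c ≤ w := by
      rw [hw]
      have : 0 < (x + y) / (2 * g) := by positivity
      linarith
    have hsum : 2 * (g * c₁) ≤ w + u := by
      have : g * c₁ ≤ g * c := mul_le_mul_of_nonneg_left hcc hgpos.le
      linarith
    have hdle : w ^ 2 - u ^ 2 ≤ y / (4 * x) := by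
      rw [hdiff, div_le_div_iff₀ (by positivity) (by positivity)]
      have h5 : ((y : ℝ) - x) ^ 2 ≤ y ^ 2 := pow_le_pow_left₀ (by linarith) (by linarith) 2
      have h6 : ((y : ℝ) - x) ^ 2 * (4 * x) ≤ y ^ 2 * (4 * x) :=
        mul_le_mul_of_nonneg_right h5 (by positivity)
      have h7 : (y : ℝ) * (4 * (x * y)) = y ^ 2 * (4 * x) := by ring
      rw [h7]
      exact h6
    have hprod : (w - u) * (2 * (g * c₁)) ≤ y / (4 * x) := by
      have : (w - u) * (2 * (g * c₁)) ≤ (w - u) * (w + u) :=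
        mul_le_mul_of_nonneg_left hsum (by linarith)
      have e : (w - u) * (w + u) = w ^ 2 - u ^ 2 := by ring
      linarith
    rw [le_div_iff₀ (by positivity)] at hprod ⊢
    calc (w - u) * (8 * x * g * c₁) = (w - u) * (2 * (g * c₁)) * (4 * x) := by ring
      _ ≤ y := hprod
  obtain ⟨k1a, k1b⟩ := key c₁ u1 Hc u1n U1 le_rfl
  obtain ⟨k2a, k2b⟩ := key c₂ u2 hc2 u2n U2 Hc12.le
  obtain ⟨k3a, k3b⟩ := key c₃ u3 hc3 u3n U3 (Hc12.trans Hc23).le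
  have hfin : 1 ≤ (c₃ : ℝ) * (y / (8 * x * g * c₁)) := by
    have hy0 : 0 ≤ (y : ℝ) / (8 * x * g * c₁) := by positivity
    have a1 : (c₃ - c₂) * (g * c₁ + (x + y) / (2 * g) - u1) ≤
        (c₃ - c₂) * (y / (8 * x * g * c₁)) :=
      mul_le_mul_of_nonneg_left k1b (by linarith)
    have a3 : (c₂ - c₁) * (g * c₃ + (x + y) / (2 * g) - u3) ≤
        (c₂ - c₁) * (y / (8 * x * g * c₁)) :=
      mul_le_mul_of_nonneg_left k3b (by linarith)
    have a2 : 0 ≤ (c₃ - c₁) * (g * c₂ + (x + y) / (2 * g) - u2) :=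
      mul_nonneg (by linarith) k2a
    have a4 : 0 ≤ (c₁ : ℝ) * (y / (8 * x * g * c₁)) := by positivity
    have e5 : (c₃ - c₁) * u2 - (c₃ - c₂) * u1 - (c₂ - c₁) * u3 =
        (c₃ - c₂) * (g * c₁ + (x + y) / (2 * g) - u1) +
        (c₂ - c₁) * (g * c₃ + (x + y) / (2 * g) - u3) -
        (c₃ - c₁) * (g * c₂ + (x + y) / (2 * g) - u2) := by ring
    have e6 : (c₃ : ℝ) * (y / (8 * x * g * c₁)) = (c₃ - c₂) * (y / (8 * x * g * c₁)) +
        (c₂ - c₁) * (y / (8 * x * g * c₁)) + c₁ * (y / (8 * x * g * c₁)) := by ring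
    rw [e5] at hT
    rw [e6]
    linarith
  have hfin2 : 8 * x * g * c₁ ≤ c₃ * (y : ℝ) := by
    have : (c₃ : ℝ) * (y / (8 * x * g * c₁)) = c₃ * y / (8 * x * g * c₁) := by ring
    rw [this, le_div_iff₀ (by positivity), one_mul] at hfin
    exact hfin
  have hsq : (8 * x * g * c₁) ^ 2 ≤ (c₃ * (y : ℝ)) ^ 2 := by
    apply pow_le_pow_left₀ (by positivity) hfin2
  have e : (8 * x * g * c₁) ^ 2 = (y : ℝ) * (64 * x ^ 3 * c₁ ^ 2) := by
    have : (8 * x * g * c₁) ^ 2 = 64 * x ^ 2 * g ^ 2 * c₁ ^ 2 := by ring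
    rw [this, hg2]; ring
  have e2 : (c₃ * (y : ℝ)) ^ 2 = y * (y * c₃ ^ 2) := by ring
  rw [e, e2] at hsq
  have := le_of_mul_le_mul_left hsq Hy
  exact_mod_cast this

end Pool.Agent.Helper74.KM
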