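import Pool.Agent.Helper75.KM.Stmts

set_option autoImplicit false

/-!
# Module LDP: the two-ends condition gives the six distance bounds in the glued space
-/

namespace Pool.Agent.Helper75.KM

open Pool.Agent.Helper8.Kak Pool.Agent.Helper89.KakGeo Finset

open scoped Classical in
theorem ldp_right {A B C : Type} [Fintype A] [Fintype B] {pA : A → ℝ} {pB : B → ℝ} {f : A → C}
    {g : B → C} (hA : IsProb pA) (hfg : ∀ c, law pA f c = law pB g c) (F : A → B → ℝ) (D : ℝ)
    (h : ∀ a, 0 < pA a → (∑ b, if g b = f a then pB b * F a b else 0) ≤ D * law pB g (f a)) :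
    ∑ x : A × B, glue pA pB f g x * F x.1 x.2 ≤ D := by
  rw [Fintype.sum_prod_type]
  have e : ∀ a, ∑ b, glue pA pB f g (a, b) * F a b ≤ pA a * D := by
    intro a
    have e1 : ∀ b, glue pA pB f g (a, b) * F a b
        = pA a / law pA f (f a) * (if g b = f a then pB b * F a b else 0) := by
      intro b
      unfold glue
      by_cases h1 : g b = f a
      · rw [if_pos h1.symm, if_pos h1]
        ring
      · rw [if_neg (fun h2 => h1 h2.symm), if_neg h1]
        ring
    simp only [e1]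
    rw [← Finset.mul_sum]
    rcases (hA.1 a).eq_or_lt with h0 | h0
    · rw [← h0]
      simp
    · have hl : 0 < law pA f (f a) := by
        rw [law_eq_cls]
        exact cls_pos hA.1 _ h0
      calc pA a / law pA f (f a) * (∑ b, if g b = f a then pB b * F a b else 0)
          ≤ pA a / law pA f (f a) * (D * law pB g (f a)) :=
            mul_le_mul_of_nonneg_left (h a h0) (by positivity)
        _ = pA a * D := by
            rw [← hfg]
            field_simp
  refine (Finset.sum_le_sum fun a _ => e a).trans (le_of_eq ?_)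
  rw [← Finset.sum_mul, hA.2, one_mul]

open scoped Classical in
theorem ldp_left {A B C : Type} [Fintype A] [Fintype B] {pA : A → ℝ} {pB : B → ℝ} {f : A → C}
    {g : B → C} (hB : IsProb pB) (hfg : ∀ c, law pA f c = law pB g c) (F : A → B → ℝ) (D : ℝ)
    (h : ∀ b, 0 < pB b → (∑ a, if f a = g b then pA a * F a b else 0) ≤ D * law pA f (g b)) :
    ∑ x : A × B, glue pA pB f g x * F x.1 x.2 ≤ D := by
  rw [Fintype.sum_prod_type, Finset.sum_comm]
  have e : ∀ b, ∑ a, glue pA pB f g (a, b) * F a b ≤ pB b * D := by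
    intro b
    have e1 : ∀ a, glue pA pB f g (a, b) * F a b
        = pB b / law pA f (g b) * (if f a = g b then pA a * F a b else 0) := by
      intro a
      unfold glue
      by_cases h1 : f a = g b
      · rw [if_pos h1, if_pos h1]
        change pA a * pB b / law pA f (f a) * F a b = _
        rw [h1]
        ring
      · rw [if_neg h1, if_neg h1]
        ring
    simp only [e1]
    rw [← Finset.mul_sum]
    rcases (hB.1 b).eq_or_lt with h0 | h0
    · rw [← h0]
      simp
    · have hl : 0 < law pA f (g b) := by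
        rw [hfg, law_eq_cls]
        exact cls_pos hB.1 _ h0
      calc pB b / law pA f (g b) * (∑ a, if f a = g b then pA a * F a b else 0)
          ≤ pB b / law pA f (g b) * (D * law pA f (g b)) :=
            mul_le_mul_of_nonneg_left (h b h0) (by positivity)
        _ = pB b * D := by
            field_simp
  refine (Finset.sum_le_sum fun b _ => e b).trans (le_of_eq ?_)
  rw [← Finset.sum_mul, hB.2, one_mul]

theorem ldp_comm {M : ℕ} (t t' : Fin M) : ld t t' = ld t' t := by
  unfold ld dst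
  rw [abs_sub_comm]

open scoped Classical in
theorem ldp_conc {m M : ℕ} {G : Geo m M} {S : Sys G} {D : ℝ} (h : Conc S.p S.K S.l S.T D)
    {ω : S.Ω} (hω : 0 < S.p ω) (t : Fin M) :
    (∑ ω', @ite ℝ (fL S.K S.l ω' = fL S.K S.l ω) (Classical.propDecidable _)
        (S.p ω' * ld (S.T ω') t) 0)
      ≤ D * law S.p (fL S.K S.l) (fL S.K S.l ω) := by
  have h1 := h ω hω t
  have e1 : ∀ ω', (S.K ⊓ Setoid.ker S.l) ω ω' ↔ fL S.K S.l ω' = fL S.K S.l ω := by
    intro ω'
    rw [eq_comm]
    exact fL_eq.symm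
  have e2 : cls S.p (S.K ⊓ Setoid.ker S.l) ω = law S.p (fL S.K S.l) (fL S.K S.l ω) := by
    rw [law_eq_cls]
    unfold cls
    refine Finset.sum_congr rfl fun x _ => ?_
    by_cases h2 : fL S.K S.l x = fL S.K S.l ω
    · have h4 : (Setoid.ker (fL S.K S.l)) ω x := h2.symm
      rw [if_pos ((e1 x).2 h2), if_pos h4]
    · have h4 : ¬ (Setoid.ker (fL S.K S.l)) ω x := fun h3 => h2 (Eq.symm h3)
      rw [if_neg (fun h3 => h2 ((e1 x).1 h3)), if_neg h4]
  rw [← e2]
  refine le_trans (le_of_eq ?_) h1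
  refine Finset.sum_congr rfl fun x _ => ?_
  by_cases h2 : fL S.K S.l x = fL S.K S.l ω
  · rw [if_pos h2, if_pos ((e1 x).2 h2)]
  · rw [if_neg h2, if_neg (fun h3 => h2 ((e1 x).1 h3))]

theorem st_LDP : ST_LDP := by
  intro m M G S D hC
  have hp := S.hp
  have f1 := (MP_Y1 S.K S.l S.T G.P hp).comp (Y1_fst S.K S.l S.T G.P hp)
  have f2 := (MP_Y1 S.K S.l S.T G.P hp).comp (Y1_snd S.K S.l S.T G.P hp)
  have f3 := (Y4_fst S.K S.l S.T G.P hp).comp (Y3_fst S.K S.l S.T G.P hp)
  have b1 : ∑ x : S.Ω × S.Ω, pA1 S.p S.K S.l x * ld (S.T x.2) (S.T x.1) ≤ D := by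
    refine ldp_right hp (fun _ => rfl) (fun a b => ld (S.T b) (S.T a)) D fun a ha => ?_
    exact ldp_conc hC ha (S.T a)
  have hY1 : ∀ b, 0 < pY1 S.p S.K S.l S.T G.P b → 0 < S.p b.1.1 := fun b hb =>
    ((Y1_fst S.K S.l S.T G.P hp).comp (A1_fst S.K S.l hp)).pos (Y1_prob S.K S.l S.T G.P hp).1 hb
  have hY3 : ∀ a, 0 < pY3 S.p S.K S.l S.T G.P a → 0 < S.p a.2.1 := fun a ha =>
    ((Y3_snd S.K S.l S.T G.P hp).comp (A1_fst S.K S.l hp)).pos (Y3_prob S.K S.l S.T G.P hp).1 ha
  refine ⟨?_, ?_, ?_, ?_, ?_, ?_⟩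
  · have e := f1.sum_comp (fun x => ld (S.T x.2) (S.T x.1))
    rw [← e] at b1
    exact b1
  · have e := f3.sum_comp (fun x => ld (S.T x.1) (S.T x.2.1.2))
    have b2 : ∑ x, pY2 S.p S.K S.l S.T G.P x * ld (S.T x.1) (S.T x.2.1.2) ≤ D := by
      refine ldp_left (Y1_prob S.K S.l S.T G.P hp) (Y2_law S.K S.l S.T G.P hp)
        (fun a b => ld (S.T a) (S.T b.1.2)) D fun b hb => ?_
      exact ldp_conc hC (hY1 b hb) (S.T b.1.2)
    rw [← e] at b2
    refine le_trans (le_of_eq ?_) b2
    unfold Ex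
    refine Finset.sum_congr rfl fun y _ => ?_
    rw [ldp_comm]
    rfl
  · have e := f2.sum_comp (fun x => ld (S.T x.2) (S.T x.1))
    rw [← e] at b1
    refine le_trans (le_of_eq ?_) b1
    unfold Ex
    refine Finset.sum_congr rfl fun y _ => ?_
    change S.pY y * ld (S.T (cR y)) (S.T (c0 y)) = S.pY y * ld (S.T (cR y)) (S.T (c1 y))
    rcases (S.hpY.1 y).eq_or_lt with h0 | h0
    · rw [← h0, zero_mul, zero_mul]
    · rw [(S.lk h0 h0).t1]
  · refine ldp_right (Y3_prob S.K S.l S.T G.P hp) (Y4_law S.K S.l S.T G.P hp)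
      (fun a b => ld (S.T b) (S.T a.1.1)) D fun a ha => ?_
    exact ldp_conc hC (hY3 a ha) (S.T a.1.1)
  · refine ldp_right (Y3_prob S.K S.l S.T G.P hp) (Y4_law S.K S.l S.T G.P hp)
      (fun a b => ld (S.T b) (S.T a.2.2)) D fun a ha => ?_
    exact ldp_conc hC (hY3 a ha) (S.T a.2.2)
  · have e := f3.sum_comp (fun x => ld (S.T x.1) (S.T x.2.1.1))
    have b2 : ∑ x, pY2 S.p S.K S.l S.T G.P x * ld (S.T x.1) (S.T x.2.1.1) ≤ D := by
      refine ldp_left (Y1_prob S.K S.l S.T G.P hp) (Y2_law S.K S.l S.T G.P hp)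
        (fun a b => ld (S.T a) (S.T b.1.1)) D fun b hb => ?_
      exact ldp_conc hC (hY1 b hb) (S.T b.1.1)
    rw [← e] at b2
    exact b2

end Pool.Agent.Helper75.KM
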