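import Pool.Agent.Helper83.KM.RowPADE
import Pool.Agent.Helper74.KM.GapTwo
import Pool.Agent.Helper74.KM.ChainEight

namespace Pool.Agent.Helper74.KM

open Pool.Agent.Helper83.KM

/-- The dichotomy for a pair of common neighbours. -/
theorem dichPair (h1 : DichStmt) {a1 p q a B b : ℕ} (haa : a1 + p + q = a) (ha : 0 < a1)
    (hp : 1 ≤ p) (hq : 1 ≤ q) (hb : 0 < b)
    (i1 : IsSquare (a1 * B + 1)) (i2 : IsSquare ((a1 + p) * B + 1)) (i3 : IsSquare (a * B + 1))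
    (j1 : IsSquare (a1 * b + 1)) (j2 : IsSquare ((a1 + p) * b + 1)) (j3 : IsSquare (a * b + 1))
    (n1 : 3 * ((a1 + p) * a) ≤ a1 * (a1 + p) * a * B)
    (n2 : 64 * (a1 * (a1 + p) * a * (p * q * (p + q))) ^ 4 ≤ a1 * (a1 + p) * a * B)
    (n4 : (a1 * (a1 + p) * a * (p * q * (p + q))) ^ 2 * ((a1 + p) * a) ≤
      a1 * (a1 + p) * a * B) (k : ℕ) :
    a1 * (a1 + p) * a * b ≤
      1024 ^ (k + 1) * ((a1 + p) * a) * (a1 * (a1 + p) * a * B) ^ (3 * k + 2) ∨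
      (a1 * (a1 + p) * a * B) ^ (4 * k + 3) ≤
        4 * (a1 * (a1 + p) * a * (p * q * (p + q))) ^ (4 * k + 2) *
        (a1 * (a1 + p) * a * b) := by
  obtain ⟨r1, e1⟩ := i1
  obtain ⟨r2, e2⟩ := i2
  obtain ⟨r3, e3⟩ := i3
  obtain ⟨s1, f1⟩ := j1
  obtain ⟨s2, f2⟩ := j2
  obtain ⟨s3, f3⟩ := j3
  have hD := PADE.dvals haa
  have ha12 : a1 < a1 + p := by omega
  have ha23 : a1 + p < a := by omega
  have hapos : 0 < a := by omega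
  have hApos : 0 < a1 * (a1 + p) * a := by positivity
  have h := h1 k ((a1 + p) * a) (a1 * a) (a1 * (a1 + p))
    (a1 * (a1 + p) * a * B) (a1 * (a1 + p) * a * b)
    ((a1 + p) * a * (r1 * s1)) (a1 * a * (r2 * s2))
    (a1 * (a1 + p) * (r3 * s3)) (by positivity)
    (Nat.mul_lt_mul_of_pos_left ha23 ha) (Nat.mul_lt_mul_of_pos_right ha12 hapos)
    (Nat.mul_pos hApos hb) n1 (by rw [hD]; exact n2) (by rw [hD]; exact n4)
    (by rw [PADE.sq_id e1 f1]; ring) (by rw [PADE.sq_id e2 f2]; ring) (PADE.sq_id e3 f3)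
  rw [hD] at h
  exact h

/-- Monomial comparison. -/
theorem mono3 {u v w : ℕ} (hu : 0 < u) (hv : 0 < v) (hw : 0 < w) (hvw : v ≤ w)
    {c1 c2 i j k i' j' k' : ℕ} (hc : c1 ≤ c2) (h3 : i ≤ i') (h1 : k ≤ k')
    (h2 : j + k ≤ j' + k') :
    c1 * (u ^ i * v ^ j * w ^ k) ≤ c2 * (u ^ i' * v ^ j' * w ^ k') := by
  refine Nat.mul_le_mul hc ?_
  have hui : u ^ i ≤ u ^ i' := Nat.pow_le_pow_right hu h3
  have hvw' : v ^ j * w ^ k ≤ v ^ j' * w ^ k' := by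
    rcases Nat.le_total j j' with hj | hj
    · exact Nat.mul_le_mul (Nat.pow_le_pow_right hv hj) (Nat.pow_le_pow_right hw h1)
    · obtain ⟨d, rfl⟩ := Nat.exists_eq_add_of_le hj
      calc v ^ (j' + d) * w ^ k = v ^ j' * (v ^ d * w ^ k) := by rw [pow_add]; ring
        _ ≤ v ^ j' * (w ^ d * w ^ k) :=
            Nat.mul_le_mul_left _ (Nat.mul_le_mul_right _ (Nat.pow_le_pow_left hvw d))
        _ = v ^ j' * w ^ (d + k) := by rw [pow_add]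
        _ ≤ v ^ j' * w ^ k' :=
            Nat.mul_le_mul_left _ (Nat.pow_le_pow_right hw (by omega))
  calc u ^ i * v ^ j * w ^ k = u ^ i * (v ^ j * w ^ k) := by ring
    _ ≤ u ^ i' * (v ^ j' * w ^ k') := Nat.mul_le_mul hui hvw'
    _ = u ^ i' * v ^ j' * w ^ k' := by ring

/-- The size conditions at `B ≥ 64 ^ 4 u ^ 35 v ^ 9 w ^ 19`. -/
theorem arith8 {u v w D x : ℕ} (hu : 0 < u) (huv : u < v) (hvw : v < w)
    (hD : D ≤ u * v ^ 2 * w ^ 3) (hx : 64 ^ 4 * (u ^ 35 * v ^ 9 * w ^ 19) ≤ x) :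
    3 * (v * w) ≤ u * v * w * x ∧ 64 * D ^ 4 ≤ u * v * w * x ∧
    D ^ 2 * (v * w) ≤ u * v * w * x ∧ 1024 * D ^ 4 ≤ u * v * w * x ∧
    4 * 1024 ^ 10 * (v * w) * D ^ 34 < (u * v * w * x) ^ 6 := by
  have hv : 0 < v := by omega
  have hw : 0 < w := by omega
  have hN : 64 ^ 4 * (u ^ 36 * v ^ 10 * w ^ 20) ≤ u * v * w * x := by
    calc 64 ^ 4 * (u ^ 36 * v ^ 10 * w ^ 20)
        = u * v * w * (64 ^ 4 * (u ^ 35 * v ^ 9 * w ^ 19)) := by ring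
      _ ≤ u * v * w * x := Nat.mul_le_mul_left _ hx
  have h1024 : 1024 * D ^ 4 ≤ u * v * w * x := by
    calc 1024 * D ^ 4 ≤ 1024 * (u * v ^ 2 * w ^ 3) ^ 4 :=
          Nat.mul_le_mul_left _ (Nat.pow_le_pow_left hD 4)
      _ = 1024 * (u ^ 4 * v ^ 8 * w ^ 12) := by ring
      _ ≤ 64 ^ 4 * (u ^ 36 * v ^ 10 * w ^ 20) :=
          mono3 hu hv hw hvw.le (by norm_num) (by norm_num) (by norm_num) (by norm_num)
      _ ≤ _ := hN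
  refine ⟨?_, ?_, ?_, h1024, ?_⟩
  · calc 3 * (v * w) = 3 * (u ^ 0 * v ^ 1 * w ^ 1) := by ring
      _ ≤ 64 ^ 4 * (u ^ 36 * v ^ 10 * w ^ 20) :=
          mono3 hu hv hw hvw.le (by norm_num) (by norm_num) (by norm_num) (by norm_num)
      _ ≤ _ := hN
  · exact le_trans (Nat.mul_le_mul_right _ (by norm_num)) h1024
  · calc D ^ 2 * (v * w) ≤ (u * v ^ 2 * w ^ 3) ^ 2 * (v * w) :=
          Nat.mul_le_mul_right _ (Nat.pow_le_pow_left hD 2)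
      _ = 1 * (u ^ 2 * v ^ 5 * w ^ 7) := by ring
      _ ≤ 64 ^ 4 * (u ^ 36 * v ^ 10 * w ^ 20) :=
          mono3 hu hv hw hvw.le (by norm_num) (by norm_num) (by norm_num) (by norm_num)
      _ ≤ _ := hN
  · have hX : 0 < u ^ 216 * v ^ 60 * w ^ 120 := by positivity
    calc 4 * 1024 ^ 10 * (v * w) * D ^ 34
        ≤ 4 * 1024 ^ 10 * (v * w) * (u * v ^ 2 * w ^ 3) ^ 34 :=
          Nat.mul_le_mul_left _ (Nat.pow_le_pow_left hD 34)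
      _ = 4 * 1024 ^ 10 * (u ^ 34 * v ^ 69 * w ^ 103) := by ring
      _ ≤ 4 * 1024 ^ 10 * (u ^ 216 * v ^ 60 * w ^ 120) :=
          mono3 hu hv hw hvw.le le_rfl (by norm_num) (by norm_num) (by norm_num)
      _ < (64 ^ 4) ^ 6 * (u ^ 216 * v ^ 60 * w ^ 120) :=
          Nat.mul_lt_mul_of_pos_right (by norm_num) hX
      _ = (64 ^ 4 * (u ^ 36 * v ^ 10 * w ^ 20)) ^ 6 := by ring
      _ ≤ (u * v * w * x) ^ 6 := Nat.pow_le_pow_left hN 6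

/-- First alternative at the second point. -/
theorem alt1 {u v w x y z : ℕ} (hu : 0 < u) (huv : u < v) (hvw : v < w)
    (hx : 64 ^ 4 * (u ^ 35 * v ^ 9 * w ^ 19) ≤ x) (hy : 64 * x ^ 3 * u ^ 2 ≤ y * w ^ 2)
    (hz : 64 ^ 4 * y ^ 9 * u ^ 8 ≤ z * w ^ 8)
    (h : u * v * w * z ≤ 1024 ^ 3 * (v * w) * (u * v * w * y) ^ 8) : False := by
  have hv : 0 < v := by omega
  have hw : 0 < w := by omega
  have hw3 : 3 ≤ w := by omega
  have hA : u * v * w ≤ w ^ 3 := by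
    calc u * v * w ≤ w * w * w := Nat.mul_le_mul (Nat.mul_le_mul (by omega) (by omega)) le_rfl
      _ = w ^ 3 := by ring
  have hα : v * w ≤ w ^ 2 := by
    calc v * w ≤ w * w := Nat.mul_le_mul_right _ (by omega)
      _ = w ^ 2 := by ring
  have hApos : 0 < u * v * w := by positivity
  have hu8 : 1 ≤ u ^ 8 := Nat.one_le_pow _ _ hu
  have hu2 : 1 ≤ u ^ 2 := Nat.one_le_pow _ _ hu
  have hxw : 64 ^ 4 * w ^ 19 ≤ x := by
    calc 64 ^ 4 * w ^ 19 = 64 ^ 4 * (u ^ 0 * v ^ 0 * w ^ 19) := by ring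
      _ ≤ 64 ^ 4 * (u ^ 35 * v ^ 9 * w ^ 19) :=
          mono3 hu hv hw hvw.le le_rfl (by norm_num) (by norm_num) (by norm_num)
      _ ≤ x := hx
  have hyw : 64 ^ 13 * w ^ 55 ≤ y := by
    have h5 : w ^ 2 * (64 ^ 13 * w ^ 55) ≤ w ^ 2 * y := by
      calc w ^ 2 * (64 ^ 13 * w ^ 55) = 64 * (64 ^ 4 * w ^ 19) ^ 3 * 1 := by ring
        _ ≤ 64 * x ^ 3 * u ^ 2 :=
            Nat.mul_le_mul (Nat.mul_le_mul_left _ (Nat.pow_le_pow_left hxw 3)) hu2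
        _ ≤ y * w ^ 2 := hy
        _ = w ^ 2 * y := by ring
    exact Nat.le_of_mul_le_mul_left h5 (by positivity)
  have hypos : 0 < y := lt_of_lt_of_le (by positivity) hyw
  have h6 : z ≤ 1024 ^ 3 * (v * w) * (u * v * w) ^ 7 * y ^ 8 := by
    have h7 : u * v * w * z ≤ u * v * w * (1024 ^ 3 * (v * w) * (u * v * w) ^ 7 * y ^ 8) := by
      refine h.trans (le_of_eq ?_)
      rw [mul_pow]
      ring
    exact Nat.le_of_mul_le_mul_left h7 hApos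
  have h8 : z ≤ 1024 ^ 3 * w ^ 23 * y ^ 8 := by
    calc z ≤ 1024 ^ 3 * (v * w) * (u * v * w) ^ 7 * y ^ 8 := h6
      _ ≤ 1024 ^ 3 * w ^ 2 * (w ^ 3) ^ 7 * y ^ 8 :=
          Nat.mul_le_mul_right _ (Nat.mul_le_mul (Nat.mul_le_mul_left _ hα)
            (Nat.pow_le_pow_left hA 7))
      _ = 1024 ^ 3 * w ^ 23 * y ^ 8 := by ring
  have h9 : y ^ 8 * (64 ^ 4 * y) ≤ y ^ 8 * (1024 ^ 3 * w ^ 31) := by
    calc y ^ 8 * (64 ^ 4 * y) = 64 ^ 4 * y ^ 9 * 1 := by ring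
      _ ≤ 64 ^ 4 * y ^ 9 * u ^ 8 := Nat.mul_le_mul_left _ hu8
      _ ≤ z * w ^ 8 := hz
      _ ≤ 1024 ^ 3 * w ^ 23 * y ^ 8 * w ^ 8 := Nat.mul_le_mul_right _ h8
      _ = y ^ 8 * (1024 ^ 3 * w ^ 31) := by ring
  have h10 : 64 ^ 4 * y ≤ 1024 ^ 3 * w ^ 31 := Nat.le_of_mul_le_mul_left h9 (by positivity)
  have h11 : 1024 ^ 3 * w ^ 31 < 64 ^ 4 * (64 ^ 13 * w ^ 55) := by
    have hp : 0 < w ^ 55 := by positivity
    calc 1024 ^ 3 * w ^ 31 ≤ 1024 ^ 3 * w ^ 55 :=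
          Nat.mul_le_mul_left _ (Nat.pow_le_pow_right hw (by norm_num))
      _ < 64 ^ 17 * w ^ 55 := Nat.mul_lt_mul_of_pos_right (by norm_num) hp
      _ = 64 ^ 4 * (64 ^ 13 * w ^ 55) := by ring
  have h12 : 64 ^ 4 * (64 ^ 13 * w ^ 55) ≤ 64 ^ 4 * y := Nat.mul_le_mul_left _ hyw
  omega

/-- Second alternative at the second point. -/
theorem alt2 {u v w x y z D : ℕ} (hu : 0 < u) (huv : u < v) (hvw : v < w)
    (hD : D ≤ u * v ^ 2 * w ^ 3)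
    (hx : 64 ^ 4 * (u ^ 35 * v ^ 9 * w ^ 19) ≤ x) (hy : 64 * x ^ 3 * u ^ 2 ≤ y * w ^ 2)
    (hc : u * v * w * z ≤ 1024 ^ 9 * (v * w) * (u * v * w * x) ^ 26)
    (h : (u * v * w * y) ^ 11 ≤ 4 * D ^ 10 * (u * v * w * z)) : False := by
  have hv : 0 < v := by omega
  have hw : 0 < w := by omega
  have hA : u * v * w ≤ w ^ 3 := by
    calc u * v * w ≤ w * w * w := Nat.mul_le_mul (Nat.mul_le_mul (by omega) (by omega)) le_rfl
      _ = w ^ 3 := by ring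
  have hα : v * w ≤ w ^ 2 := by
    calc v * w ≤ w * w := Nat.mul_le_mul_right _ (by omega)
      _ = w ^ 2 := by ring
  have hD6 : D ≤ w ^ 6 := by
    calc D ≤ u * v ^ 2 * w ^ 3 := hD
      _ ≤ w * w ^ 2 * w ^ 3 :=
          Nat.mul_le_mul_right _ (Nat.mul_le_mul (by omega) (Nat.pow_le_pow_left hvw.le 2))
      _ = w ^ 6 := by ring
  have hApos : 0 < u * v * w := by positivity
  have hu2 : 1 ≤ u ^ 2 := Nat.one_le_pow _ _ hu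
  have hxw : 64 ^ 4 * w ^ 19 ≤ x := by
    calc 64 ^ 4 * w ^ 19 = 64 ^ 4 * (u ^ 0 * v ^ 0 * w ^ 19) := by ring
      _ ≤ 64 ^ 4 * (u ^ 35 * v ^ 9 * w ^ 19) :=
          mono3 hu hv hw hvw.le le_rfl (by norm_num) (by norm_num) (by norm_num)
      _ ≤ x := hx
  have hxpos : 0 < x := lt_of_lt_of_le (by positivity) hxw
  have h1 : 64 * x ^ 3 ≤ y * w ^ 2 := by
    calc 64 * x ^ 3 = 64 * x ^ 3 * 1 := by ring
      _ ≤ 64 * x ^ 3 * u ^ 2 := Nat.mul_le_mul_left _ hu2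
      _ ≤ y * w ^ 2 := hy
  set A := u * v * w with hAdef
  have h2 : (A ^ 11 * x ^ 26) * (64 ^ 11 * x ^ 7) ≤
      (A ^ 11 * x ^ 26) * (4 * 1024 ^ 9 * w ^ 129) := by
    calc (A ^ 11 * x ^ 26) * (64 ^ 11 * x ^ 7) = A ^ 11 * (64 * x ^ 3) ^ 11 := by ring
      _ ≤ A ^ 11 * (y * w ^ 2) ^ 11 := Nat.mul_le_mul_left _ (Nat.pow_le_pow_left h1 11)
      _ = (A * y) ^ 11 * w ^ 22 := by ring
      _ ≤ 4 * D ^ 10 * (A * z) * w ^ 22 := Nat.mul_le_mul_right _ h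
      _ ≤ 4 * D ^ 10 * (1024 ^ 9 * (v * w) * (A * x) ^ 26) * w ^ 22 :=
          Nat.mul_le_mul_right _ (Nat.mul_le_mul_left _ hc)
      _ = (A ^ 11 * x ^ 26) * (4 * 1024 ^ 9 * (D ^ 10 * (v * w) * A ^ 15 * w ^ 22)) := by ring
      _ ≤ (A ^ 11 * x ^ 26) *
            (4 * 1024 ^ 9 * ((w ^ 6) ^ 10 * w ^ 2 * (w ^ 3) ^ 15 * w ^ 22)) := by
          refine Nat.mul_le_mul_left _ (Nat.mul_le_mul_left _ (Nat.mul_le_mul_right _ ?_))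
          exact Nat.mul_le_mul (Nat.mul_le_mul (Nat.pow_le_pow_left hD6 10) hα)
            (Nat.pow_le_pow_left hA 15)
      _ = (A ^ 11 * x ^ 26) * (4 * 1024 ^ 9 * w ^ 129) := by ring
  have h3 : 64 ^ 11 * x ^ 7 ≤ 4 * 1024 ^ 9 * w ^ 129 :=
    Nat.le_of_mul_le_mul_left h2 (by positivity)
  have h4 : 64 ^ 11 * (64 ^ 4 * w ^ 19) ^ 7 ≤ 64 ^ 11 * x ^ 7 :=
    Nat.mul_le_mul_left _ (Nat.pow_le_pow_left hxw 7)
  have h5 : 4 * 1024 ^ 9 * w ^ 129 < 64 ^ 11 * (64 ^ 4 * w ^ 19) ^ 7 := by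
    have hp : 0 < w ^ 133 := by positivity
    calc 4 * 1024 ^ 9 * w ^ 129 ≤ 4 * 1024 ^ 9 * w ^ 133 :=
          Nat.mul_le_mul_left _ (Nat.pow_le_pow_right hw (by norm_num))
      _ < 64 ^ 39 * w ^ 133 := Nat.mul_lt_mul_of_pos_right (by norm_num) hp
      _ = 64 ^ 11 * (64 ^ 4 * w ^ 19) ^ 7 := by ring
  exact absurd (h4.trans h3) (not_le.mpr h5)

/-- Three positive integers do not have eight common neighbours above all of them. -/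
theorem seq8 (hdi : DichStmt) (hg : GapStmt) (a₁ a₂ a₃ : ℕ) (ha : 0 < a₁) (ha12 : a₁ < a₂)
    (ha23 : a₂ < a₃) (b : ℕ → ℕ) (hb : ∀ i, i < 7 → b i < b (i + 1)) (hb0 : a₃ < b 0)
    (h1 : ∀ i, i < 8 → IsSquare (a₁ * b i + 1)) (h2 : ∀ i, i < 8 → IsSquare (a₂ * b i + 1))
    (h3 : ∀ i, i < 8 → IsSquare (a₃ * b i + 1)) : False := by
  have hpos : ∀ i, i ≤ 7 → 0 < b i := by
    intro i
    induction i with
    | zero => intro _; omega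
    | succ n ih =>
      intro hn
      have := hb n (by omega)
      have := ih (by omega)
      omega
  have g2 : ∀ i, i < 7 → 64 * b i ^ 3 * a₁ ^ 2 ≤ b (i + 1) * a₃ ^ 2 := by
    intro i hi
    exact gapTwo a₁ a₂ a₃ (b i) (b (i + 1)) ha ha12 ha23 (hpos i (by omega)) (hb i hi)
      (h1 i (by omega)) (h2 i (by omega)) (h3 i (by omega)) (h1 (i + 1) (by omega))
      (h2 (i + 1) (by omega)) (h3 (i + 1) (by omega))
  have ha3 : 0 < a₃ := by omega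
  have hb1 : a₃ ≤ b 1 := by
    have := hb 0 (by omega)
    simp only [Nat.zero_add] at this
    omega
  have hb2 : a₁ ^ 3 * a₂ * a₃ ^ 3 ≤ b 2 := by
    have h := hg a₁ a₂ a₃ (b 0) (b 1) (b 2) ha ha12 ha23 (hpos 0 (by omega))
      (hb 0 (by omega)) (hb 1 (by omega)) (h1 0 (by omega)) (h1 1 (by omega))
      (h1 2 (by omega)) (h2 0 (by omega)) (h2 1 (by omega)) (h2 2 (by omega))
      (h3 0 (by omega)) (h3 1 (by omega)) (h3 2 (by omega))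
    have h' : a₃ * (a₁ ^ 3 * a₂ * a₃ ^ 3) ≤ a₃ * b 2 := by
      calc a₃ * (a₁ ^ 3 * a₂ * a₃ ^ 3) = a₂ * a₃ * (a₁ * a₃) ^ 3 := by ring
        _ ≤ a₂ * b 1 * (a₁ * b 0) ^ 3 :=
            Nat.mul_le_mul (Nat.mul_le_mul_left _ hb1)
              (Nat.pow_le_pow_left (Nat.mul_le_mul_left _ hb0.le) 3)
        _ ≤ a₃ * b 2 := h
    exact Nat.le_of_mul_le_mul_left h' ha3
  have hb3 : 64 * a₁ ^ 11 * a₂ ^ 3 * a₃ ^ 7 ≤ b 3 := by
    have h := g2 2 (by omega)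
    have h' : a₃ ^ 2 * (64 * a₁ ^ 11 * a₂ ^ 3 * a₃ ^ 7) ≤ a₃ ^ 2 * b 3 := by
      calc a₃ ^ 2 * (64 * a₁ ^ 11 * a₂ ^ 3 * a₃ ^ 7)
          = 64 * (a₁ ^ 3 * a₂ * a₃ ^ 3) ^ 3 * a₁ ^ 2 := by ring
        _ ≤ 64 * b 2 ^ 3 * a₁ ^ 2 :=
            Nat.mul_le_mul_right _ (Nat.mul_le_mul_left _ (Nat.pow_le_pow_left hb2 3))
        _ ≤ b 3 * a₃ ^ 2 := h
        _ = a₃ ^ 2 * b 3 := by ring
    exact Nat.le_of_mul_le_mul_left h' (by positivity)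
  have hb4 : 64 ^ 4 * (a₁ ^ 35 * a₂ ^ 9 * a₃ ^ 19) ≤ b 4 := by
    have h := g2 3 (by omega)
    have h' : a₃ ^ 2 * (64 ^ 4 * (a₁ ^ 35 * a₂ ^ 9 * a₃ ^ 19)) ≤ a₃ ^ 2 * b 4 := by
      calc a₃ ^ 2 * (64 ^ 4 * (a₁ ^ 35 * a₂ ^ 9 * a₃ ^ 19))
          = 64 * (64 * a₁ ^ 11 * a₂ ^ 3 * a₃ ^ 7) ^ 3 * a₁ ^ 2 := by ring
        _ ≤ 64 * b 3 ^ 3 * a₁ ^ 2 :=
            Nat.mul_le_mul_right _ (Nat.mul_le_mul_left _ (Nat.pow_le_pow_left hb3 3))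
        _ ≤ b 4 * a₃ ^ 2 := h
        _ = a₃ ^ 2 * b 4 := by ring
    exact Nat.le_of_mul_le_mul_left h' (by positivity)
  have hb5 : 64 * b 4 ^ 3 * a₁ ^ 2 ≤ b 5 * a₃ ^ 2 := g2 4 (by omega)
  have hb7 : 64 ^ 4 * b 5 ^ 9 * a₁ ^ 8 ≤ b 7 * a₃ ^ 8 := by
    have h5 := g2 5 (by omega)
    have h6 := g2 6 (by omega)
    simp only [Nat.reduceAdd] at h5 h6
    calc 64 ^ 4 * b 5 ^ 9 * a₁ ^ 8 = 64 * (64 * b 5 ^ 3 * a₁ ^ 2) ^ 3 * a₁ ^ 2 := by ring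
      _ ≤ 64 * (b 6 * a₃ ^ 2) ^ 3 * a₁ ^ 2 :=
          Nat.mul_le_mul_right _ (Nat.mul_le_mul_left _ (Nat.pow_le_pow_left h5 3))
      _ = (64 * b 6 ^ 3 * a₁ ^ 2) * a₃ ^ 6 := by ring
      _ ≤ (b 7 * a₃ ^ 2) * a₃ ^ 6 := Nat.mul_le_mul_right _ h6
      _ = b 7 * a₃ ^ 8 := by ring
  obtain ⟨p, rfl⟩ := Nat.exists_eq_add_of_le ha12.le
  obtain ⟨q, haa⟩ := Nat.exists_eq_add_of_le ha23.le
  have hp : 1 ≤ p := by omega
  have hq : 1 ≤ q := by omega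
  have hDle : a₁ * (a₁ + p) * a₃ * (p * q * (p + q)) ≤ a₁ * (a₁ + p) ^ 2 * a₃ ^ 3 := by
    have hpq : p * q * (p + q) ≤ (a₁ + p) * a₃ * a₃ :=
      Nat.mul_le_mul (Nat.mul_le_mul (by omega) (by omega)) (by omega)
    calc a₁ * (a₁ + p) * a₃ * (p * q * (p + q))
        ≤ a₁ * (a₁ + p) * a₃ * ((a₁ + p) * a₃ * a₃) := Nat.mul_le_mul_left _ hpq
      _ = a₁ * (a₁ + p) ^ 2 * a₃ ^ 3 := by ring
  have hb45 : 64 ^ 4 * (a₁ ^ 35 * (a₁ + p) ^ 9 * a₃ ^ 19) ≤ b 5 :=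
    hb4.trans (hb 4 (by omega)).le
  obtain ⟨m1, m2, m3, m4, m5⟩ := arith8 ha ha12 ha23 hDle hb4
  obtain ⟨n1, n2, n3, n4, n5⟩ := arith8 ha ha12 ha23 hDle hb45
  have hαpos : 0 < (a₁ + p) * a₃ := by positivity
  have hDpos : 0 < a₁ * (a₁ + p) * a₃ * (p * q * (p + q)) := by positivity
  have hchain := chain8 ((a₁ + p) * a₃) (a₁ * (a₁ + p) * a₃ * b 4)
    (a₁ * (a₁ + p) * a₃ * b 7) _ hαpos hDpos m4 m5
    (fun k => dichPair hdi haa.symm ha hp hq (hpos 7 (by omega)) (h1 4 (by omega))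
      (h2 4 (by omega)) (h3 4 (by omega)) (h1 7 (by omega)) (h2 7 (by omega))
      (h3 7 (by omega)) m1 m2 m3 k)
  rcases dichPair hdi haa.symm ha hp hq (hpos 7 (by omega)) (h1 5 (by omega))
      (h2 5 (by omega)) (h3 5 (by omega)) (h1 7 (by omega)) (h2 7 (by omega))
      (h3 7 (by omega)) n1 n2 n3 2 with hcase | hcase
  · exact alt1 ha ha12 ha23 hb4 hb5 hb7 hcase
  · exact alt2 ha ha12 ha23 hDle hb4 hb5 hchain hcase

end Pool.Agent.Helper74.KM
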