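import Pool.Agent.Helper74.KM.SeqEight
import Pool.Agent.Helper83.KM.Main

set_option autoImplicit false

namespace Pool.Agent.Helper74.KM

open Pool.Agent.Helper83.KM

/-- The dichotomy, proved. -/
theorem dich : DichStmt :=
  Dich.row (FORM.row (PF.row INV.row) INTEG.row SER.row) UB.row LB.row DICHA.row

/-- No eight common neighbours above. -/
theorem seq (a₁ a₂ a₃ : ℕ) (ha : 0 < a₁) (ha12 : a₁ < a₂)
    (ha23 : a₂ < a₃) (b : ℕ → ℕ) (hb : ∀ i, i < 7 → b i < b (i + 1)) (hb0 : a₃ < b 0)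
    (h1 : ∀ i, i < 8 → IsSquare (a₁ * b i + 1)) (h2 : ∀ i, i < 8 → IsSquare (a₂ * b i + 1))
    (h3 : ∀ i, i < 8 → IsSquare (a₃ * b i + 1)) : False :=
  seq8 dich GAP.row a₁ a₂ a₃ ha ha12 ha23 b hb hb0 h1 h2 h3

/-- Three positive integers have at most seven common neighbours above all of them. -/
theorem triple7 (a₁ a₂ a₃ : ℕ) (ha : 0 < a₁) (ha12 : a₁ < a₂) (ha23 : a₂ < a₃) (S : Finset ℕ)
    (hS : ∀ b ∈ S, a₃ < b ∧ IsSquare (a₁ * b + 1) ∧ IsSquare (a₂ * b + 1) ∧
      IsSquare (a₃ * b + 1)) : S.card ≤ 7 := by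
  by_contra hcard
  obtain ⟨T, hTS, hT⟩ := Finset.exists_subset_card_eq (show 8 ≤ S.card by omega)
  let f := T.orderEmbOfFin hT
  have hf : ∀ i, (f i) ∈ S := fun i => hTS (T.orderEmbOfFin_mem hT i)
  refine seq a₁ a₂ a₃ ha ha12 ha23 (fun i => if h : i < 8 then f ⟨i, h⟩ else 0) ?_ ?_ ?_ ?_ ?_
  · intro i hi
    have h1 : i < 8 := by omega
    have h2 : i + 1 < 8 := by omega
    simp only [h1, h2, dite_true]
    apply f.strictMono
    simp [Fin.lt_def]
  · simpa using (hS _ (hf ⟨0, by norm_num⟩)).1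
  · intro i hi
    simp only [hi, dite_true]
    exact (hS _ (hf ⟨i, hi⟩)).2.1
  · intro i hi
    simp only [hi, dite_true]
    exact (hS _ (hf ⟨i, hi⟩)).2.2.1
  · intro i hi
    simp only [hi, dite_true]
    exact (hS _ (hf ⟨i, hi⟩)).2.2.2

/-- two increasing lists of ten numbers -/
theorem core10 (a b : Fin 10 → ℕ) (ha : StrictMono a) (hb : StrictMono b)
    (ha0 : 0 < a 0) (hlt : a 2 < b 2) (h : ∀ i j, IsSquare (a i * b j + 1)) : False := by
  refine seq (a 0) (a 1) (a 2) ha0 (ha (by decide)) (ha (by decide))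
    (fun i => b ⟨min (2 + i) 9, by omega⟩) ?_ ?_ ?_ ?_ ?_
  · intro i hi
    apply hb
    rw [Fin.mk_lt_mk]
    omega
  · exact hlt
  · intro i _; exact h _ _
  · intro i _; exact h _ _
  · intro i _; exact h _ _

/-- If `a b + 1` is a square for all `a ∈ A`, `b ∈ B` then `|A| ≤ 9` or `|B| ≤ 9`. -/
theorem sets9 (A B : Finset ℕ) (hA : ∀ a ∈ A, 0 < a) (hB : ∀ b ∈ B, 0 < b)
    (h : ∀ a ∈ A, ∀ b ∈ B, IsSquare (a * b + 1)) : A.card ≤ 9 ∨ B.card ≤ 9 := by
  by_contra hc
  rw [not_or, not_le, not_le] at hc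
  obtain ⟨A', hA', cA⟩ := Finset.exists_subset_card_eq (show 10 ≤ A.card by omega)
  obtain ⟨B', hB', cB⟩ := Finset.exists_subset_card_eq (show 10 ≤ B.card by omega)
  have ma : ∀ i, A'.orderEmbOfFin cA i ∈ A := fun i => hA' (Finset.orderEmbOfFin_mem A' cA i)
  have mb : ∀ i, B'.orderEmbOfFin cB i ∈ B := fun i => hB' (Finset.orderEmbOfFin_mem B' cB i)
  rcases lt_trichotomy (A'.orderEmbOfFin cA 2) (B'.orderEmbOfFin cB 2) with h1 | h1 | h1
  · exact core10 _ _ (A'.orderEmbOfFin cA).strictMono (B'.orderEmbOfFin cB).strictMono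
      (hA _ (ma 0)) h1 (fun i j => h _ (ma i) _ (mb j))
  · have h2 := h _ (ma 2) _ (mb 2)
    rw [h1] at h2
    exact SETS.not_sq (hB _ (mb 2)) h2
  · exact core10 _ _ (B'.orderEmbOfFin cB).strictMono (A'.orderEmbOfFin cA).strictMono
      (hB _ (mb 0)) h1 (fun i j => by rw [Nat.mul_comm]; exact h _ (ma j) _ (mb i))

/-- No Diophantine graph contains `K_{10,10}`. -/
theorem graph10 (V : Type) (G : SimpleGraph V) (hG : Pool.Agent.Helper56.Dio.IsDiophantine G) :
    ¬ (completeBipartiteGraph (Fin 10) (Fin 10)).IsContained G := by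
  intro hc
  obtain ⟨f, hpos, hinj, hadj⟩ := hG
  obtain ⟨c⟩ := hc
  have hcinj : Function.Injective c := c.injective
  have hl : Function.Injective (fun i : Fin 10 => f (c (Sum.inl i))) := by
    intro i j hij
    exact Sum.inl_injective (hcinj (hinj hij))
  have hr : Function.Injective (fun i : Fin 10 => f (c (Sum.inr i))) := by
    intro i j hij
    exact Sum.inr_injective (hcinj (hinj hij))
  have h := sets9 (Finset.univ.image (fun i : Fin 10 => f (c (Sum.inl i))))
    (Finset.univ.image (fun i : Fin 10 => f (c (Sum.inr i)))) ?_ ?_ ?_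
  · rw [Finset.card_image_of_injective _ hl, Finset.card_image_of_injective _ hr,
      Finset.card_univ, Fintype.card_fin] at h
    omega
  · intro a ha
    obtain ⟨i, _, rfl⟩ := Finset.mem_image.mp ha
    exact hpos _
  · intro a ha
    obtain ⟨i, _, rfl⟩ := Finset.mem_image.mp ha
    exact hpos _
  · intro a ha b hb
    obtain ⟨i, _, rfl⟩ := Finset.mem_image.mp ha
    obtain ⟨j, _, rfl⟩ := Finset.mem_image.mp hb
    have had : G.Adj (c (Sum.inl i)) (c (Sum.inr j)) := by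
      apply c.toHom.map_adj
      simp [completeBipartiteGraph]
    exact (hadj _ _ had.ne).mp had

section Edge

variable {V : Type} [Fintype V] [DecidableEq V] (G : SimpleGraph V) [DecidableRel G.Adj] (f : V → ℕ)

theorem tri7 (h : ∀ u v w : V, f u < f v → f v < f w → ∀ S : Finset V,
      (∀ x ∈ S, f w < f x ∧ G.Adj u x ∧ G.Adj v x ∧ G.Adj w x) → S.card ≤ 7)
    (a b c : V) (hab : f a ≠ f b) (hac : f a ≠ f c) (hbc : f b ≠ f c) (S : Finset V)
    (hS : ∀ x ∈ S, (f a < f x ∧ G.Adj a x) ∧ (f b < f x ∧ G.Adj b x) ∧ (f c < f x ∧ G.Adj c x)) :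
    S.card ≤ 7 := by
  rcases lt_or_gt_of_ne hab with h1 | h1
  · rcases lt_or_gt_of_ne hac with h2 | h2
    · rcases lt_or_gt_of_ne hbc with h3 | h3
      · exact h a b c h1 h3 S fun x hx =>
          ⟨(hS x hx).2.2.1, (hS x hx).1.2, (hS x hx).2.1.2, (hS x hx).2.2.2⟩
      · exact h a c b h2 h3 S fun x hx =>
          ⟨(hS x hx).2.1.1, (hS x hx).1.2, (hS x hx).2.2.2, (hS x hx).2.1.2⟩
    · exact h c a b h2 h1 S fun x hx =>
        ⟨(hS x hx).2.1.1, (hS x hx).2.2.2, (hS x hx).1.2, (hS x hx).2.1.2⟩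
  · rcases lt_or_gt_of_ne hac with h2 | h2
    · exact h b a c h1 h2 S fun x hx =>
        ⟨(hS x hx).2.2.1, (hS x hx).2.1.2, (hS x hx).1.2, (hS x hx).2.2.2⟩
    · rcases lt_or_gt_of_ne hbc with h3 | h3
      · exact h b c a h3 h2 S fun x hx =>
          ⟨(hS x hx).1.1, (hS x hx).2.1.2, (hS x hx).2.2.2, (hS x hx).1.2⟩
      · exact h c b a h3 h1 S fun x hx =>
          ⟨(hS x hx).1.1, (hS x hx).2.2.2, (hS x hx).2.1.2, (hS x hx).1.2⟩

theorem count7 (hf : Function.Injective f) (h : ∀ u v w : V, f u < f v → f v < f w →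
      ∀ S : Finset V, (∀ x ∈ S, f w < f x ∧ G.Adj u x ∧ G.Adj v x ∧ G.Adj w x) → S.card ≤ 7) :
    ∑ x, ((Edge.dn G f x).card).choose 3 ≤ 7 * (Fintype.card V).choose 3 := by
  have h1 := Finset.sum_card_bipartiteAbove_eq_sum_card_bipartiteBelow
    (s := (Finset.univ : Finset V)) (t := Finset.powersetCard 3 (Finset.univ : Finset V))
    (fun x S => S ⊆ Edge.dn G f x)
  have h2 : ∀ x : V, (Finset.bipartiteAbove (fun x S => S ⊆ Edge.dn G f x)
      (Finset.powersetCard 3 (Finset.univ : Finset V)) x).card =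
        ((Edge.dn G f x).card).choose 3 := by
    intro x
    rw [← Finset.card_powersetCard]
    congr 1
    ext S
    rw [Finset.mem_bipartiteAbove, Finset.mem_powersetCard, Finset.mem_powersetCard]
    constructor
    · rintro ⟨⟨_, h⟩, h'⟩
      exact ⟨h', h⟩
    · rintro ⟨h', h⟩
      exact ⟨⟨Finset.subset_univ _, h⟩, h'⟩
  rw [Finset.sum_congr rfl (fun v _ => h2 v)] at h1
  rw [h1]
  calc ∑ S ∈ Finset.powersetCard 3 (Finset.univ : Finset V),
        (Finset.bipartiteBelow (fun x S => S ⊆ Edge.dn G f x)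
          (Finset.univ : Finset V) S).card
      ≤ ∑ _S ∈ Finset.powersetCard 3 (Finset.univ : Finset V), 7 := by
        apply Finset.sum_le_sum
        intro S hS
        obtain ⟨a, b, c, hab, hac, hbc, rfl⟩ :=
          Finset.card_eq_three.1 (Finset.mem_powersetCard.1 hS).2
        apply tri7 G f h a b c (fun h' => hab (hf h')) (fun h' => hac (hf h'))
          (fun h' => hbc (hf h'))
        intro x hx
        have hx' := (Finset.mem_filter.1 hx).2
        have ha := (Finset.mem_filter.1 (hx' (by simp : a ∈ ({a, b, c} : Finset V)))).2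
        have hb := (Finset.mem_filter.1 (hx' (by simp : b ∈ ({a, b, c} : Finset V)))).2
        have hc := (Finset.mem_filter.1 (hx' (by simp : c ∈ ({a, b, c} : Finset V)))).2
        exact ⟨⟨ha.2, ha.1⟩, ⟨hb.2, hb.1⟩, ⟨hc.2, hc.1⟩⟩
    _ = 7 * (Fintype.card V).choose 3 := by
        rw [Finset.sum_const, Finset.card_powersetCard, Finset.card_univ, smul_eq_mul, mul_comm]

end Edge

/-- A graph in which any three vertices have at most seven common neighbours above them has at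
most `4 n ^ (5 / 3)` edges. -/
theorem edge4 (V : Type) [Fintype V] (G : SimpleGraph V) [DecidableRel G.Adj] (f : V → ℕ)
    (hf : Function.Injective f)
    (h : ∀ u v w : V, f u < f v → f v < f w → ∀ S : Finset V,
      (∀ x ∈ S, f w < f x ∧ G.Adj u x ∧ G.Adj v x ∧ G.Adj w x) → S.card ≤ 7) :
    (G.edgeFinset.card : ℝ) ≤ 4 * (Fintype.card V : ℝ) ^ (5 / 3 : ℝ) := by
  classical
  have hcount : ∑ v : V, ((Edge.dn G f v).card).choose 3 ≤ 7 * (Fintype.card V).choose 3 :=
    count7 G f hf h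
  have hedges : G.edgeFinset.card = ∑ x, (Edge.dn G f x).card := Edge.edges G f hf
  set n := Fintype.card V with hn
  have h1 : ∑ v : V, ((Edge.dn G f v).card - 2) ^ 3 ≤ 8 * n ^ 3 := by
    calc ∑ v : V, ((Edge.dn G f v).card - 2) ^ 3
        ≤ ∑ v : V, Nat.factorial 3 * ((Edge.dn G f v).card).choose 3 := by
          apply Finset.sum_le_sum
          intro v _
          have h2 := Nat.pow_sub_le_descFactorial ((Edge.dn G f v).card) 3
          rw [Nat.descFactorial_eq_factorial_mul_choose] at h2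
          have e : (Edge.dn G f v).card + 1 - 3 = (Edge.dn G f v).card - 2 := by omega
          rw [e] at h2
          exact h2
      _ = Nat.factorial 3 * ∑ v : V, ((Edge.dn G f v).card).choose 3 := by
          rw [Finset.mul_sum]
      _ ≤ Nat.factorial 3 * (7 * n.choose 3) := Nat.mul_le_mul_left _ hcount
      _ = 7 * (Nat.factorial 3 * n.choose 3) := by ring
      _ = 7 * n.descFactorial 3 := by rw [Nat.descFactorial_eq_factorial_mul_choose]
      _ ≤ 8 * n ^ 3 := Nat.mul_le_mul (by norm_num) (Nat.descFactorial_le_pow n 3)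
  have h1R : ∑ v : V, (((Edge.dn G f v).card - 2 : ℕ) : ℝ) ^ 3 ≤ 8 * (n : ℝ) ^ 3 := by
    exact_mod_cast h1
  set e : ℝ := (G.edgeFinset.card : ℝ) with he
  have hdeg : (∑ v : V, ((Edge.dn G f v).card : ℝ)) = e := by
    rw [he, hedges]
    push_cast
    rfl
  have hsum : e - 2 * n ≤ ∑ v : V, (((Edge.dn G f v).card - 2 : ℕ) : ℝ) := by
    have h3 : ∑ v : V, (((Edge.dn G f v).card : ℝ) - 2) ≤
        ∑ v : V, (((Edge.dn G f v).card - 2 : ℕ) : ℝ) := by
      apply Finset.sum_le_sum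
      intro v _
      have : ((Edge.dn G f v).card : ℤ) - 2 ≤ (((Edge.dn G f v).card - 2 : ℕ) : ℤ) := by omega
      exact_mod_cast this
    rw [Finset.sum_sub_distrib, hdeg, Finset.sum_const, Finset.card_univ, nsmul_eq_mul,
      ← hn] at h3
    linarith
  rcases Nat.eq_zero_or_pos n with h0 | hpos
  · have hE : IsEmpty V := Fintype.card_eq_zero_iff.1 h0
    have h4 : ∑ v : V, (((Edge.dn G f v).card - 2 : ℕ) : ℝ) = 0 := by
      rw [Finset.univ_eq_empty, Finset.sum_empty]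
    rw [h4, h0] at hsum
    rw [h0]
    have h5 : (0 : ℝ) ≤ ((0 : ℕ) : ℝ) ^ (5 / 3 : ℝ) := Real.rpow_nonneg (by norm_num) _
    push_cast at hsum
    linarith
  have hn1 : (1 : ℝ) ≤ n := by exact_mod_cast hpos
  have hn0 : (0 : ℝ) < n := by linarith
  set Q : ℝ := (n : ℝ) ^ (5 / 3 : ℝ) with hQ
  have hQpos : 0 < Q := Real.rpow_pos_of_pos hn0 _
  have hnQ : (n : ℝ) ≤ Q := by
    calc (n : ℝ) = (n : ℝ) ^ (1 : ℝ) := (Real.rpow_one _).symm
      _ ≤ Q := Real.rpow_le_rpow_of_exponent_le hn1 (by norm_num)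
  have hQ3 : Q ^ 3 = (n : ℝ) ^ 5 := by
    rw [hQ, ← Real.rpow_natCast, ← Real.rpow_mul hn0.le, ← Real.rpow_natCast]
    norm_num
  have hpow := pow_sum_div_card_le_sum_pow (s := (Finset.univ : Finset V))
    (f := fun v => (((Edge.dn G f v).card - 2 : ℕ) : ℝ)) (fun v _ => Nat.cast_nonneg _) 2
  rw [Finset.card_univ, ← hn] at hpow
  have h6 : (∑ v : V, (((Edge.dn G f v).card - 2 : ℕ) : ℝ)) ^ 3 ≤ 8 * (n : ℝ) ^ 5 := by
    have h7 := hpow.trans h1R
    rw [div_le_iff₀ (by positivity)] at h7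
    calc (∑ v : V, (((Edge.dn G f v).card - 2 : ℕ) : ℝ)) ^ 3
        ≤ 8 * (n : ℝ) ^ 3 * (n : ℝ) ^ 2 := h7
      _ = 8 * (n : ℝ) ^ 5 := by ring
  have h8 : (∑ v : V, (((Edge.dn G f v).card - 2 : ℕ) : ℝ)) ≤ 2 * Q := by
    by_contra hcon
    push Not at hcon
    have h9 : (2 * Q) ^ 3 < (∑ v : V, (((Edge.dn G f v).card - 2 : ℕ) : ℝ)) ^ 3 :=
      pow_lt_pow_left₀ hcon (by positivity) (by norm_num)
    rw [mul_pow, hQ3] at h9
    have h10 : (0 : ℝ) < (n : ℝ) ^ 5 := by positivity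
    linarith
  linarith

/-- A Diophantine graph with `n` vertices has at most `4 n ^ (5 / 3)` edges. -/
theorem dioEdge (V : Type) [Fintype V] (G : SimpleGraph V) [DecidableRel G.Adj]
    (hG : Pool.Agent.Helper56.Dio.IsDiophantine G) :
    (G.edgeFinset.card : ℝ) ≤ 4 * (Fintype.card V : ℝ) ^ (5 / 3 : ℝ) := by
  obtain ⟨f, hpos, hinj, hadj⟩ := hG
  refine edge4 V G f hinj ?_
  intro u v w huv hvw S hS
  have h := triple7 (f u) (f v) (f w) (hpos u) huv hvw (S.image f) ?_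
  · rwa [Finset.card_image_of_injective _ hinj] at h
  · intro b hb
    obtain ⟨x, hx, rfl⟩ := Finset.mem_image.mp hb
    obtain ⟨h0, h1, h2, h3⟩ := hS x hx
    exact ⟨h0, (hadj _ _ h1.ne).mp h1, (hadj _ _ h2.ne).mp h2, (hadj _ _ h3.ne).mp h3⟩

end Pool.Agent.Helper74.KM
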